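import Pool.Agent.Lib.MP_f7c71a_lc.Main

set_option autoImplicit false

/-!
MP_f7c71a_lc, Q1: for every oracle `X` and every `k`, on any set of at most `n ^ k` strings of
length at most `n` the oracle can be simulated by a finite condition up to `O(log n)`.
-/

namespace Pool.Agent.Results.MP_f7c71a_lc.OracleByCondition

open Pool.Agent.Lib.MP_f7c71a_lc

/-- Optimal decompressors exist (plain, and relative to every oracle `X`), and for all optimal
decompressors `D` (plain) and `D'` (relative to `X`) and all `k` there is a constant `c` such that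
every set `S` of at most `n ^ k` strings of length at most `n` (`n ≥ 2`) admits a string `x₀` with
`|C(s | x₀) - C^X(s)| ≤ c * log n` for all `s ∈ S`. -/
theorem result :
    (∃ D : Str → Str →. Str, IsOptimal D) ∧
    (∀ X : ℕ → Bool, ∃ D' : Str → Str →. Str, IsOptimalIn X D') ∧
    ∀ D : Str → Str →. Str, IsOptimal D →
      ∀ (X : ℕ → Bool) (D' : Str → Str →. Str), IsOptimalIn X D' →
        ∀ k : ℕ, ∃ c : ℝ, ∀ n : ℕ, 2 ≤ n →
          ∀ S : Finset Str, (∀ s ∈ S, s.length ≤ n) → S.card ≤ n ^ k →
            ∃ x₀ : Str, ∀ s ∈ S, |(KC D s x₀ : ℝ) - (KC D' s [] : ℝ)| ≤ c * Real.log n :=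
  ⟨exists_optimal, exists_optimalIn, fun D hD X D' hD' k => main D hD X D' hD' k⟩

end Pool.Agent.Results.MP_f7c71a_lc.OracleByCondition
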